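import Pool.Agent.Run7.h286.PL.StmC
import Pool.Agent.N615.JB.Alg

/-!
# Project PRL (helper286), piece K3 (helper382): every class of square norm is a Kummer class

Adapted from the proof of `S_KUM` in `Pool/Agent/N232/JB/KUM.lean` (helper232).
-/

set_option autoImplicit false
set_option linter.all false

open Polynomial IsDedekindDomain
open scoped Classical

namespace Run7.h382.PL

open Pool.Agent.Y160.SE
open Pool.Agent.TH115.GD (incl rs ak)
open Pool.Agent.N352.JB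
open Run7.h286.PLC

theorem T_K3 : P_K3 := by
  intro K Ω _ _ _ _ _ f hg _ _ h hco hsq
  have H : Hyps := hyps
  have h2 : (2 : Ω) ≠ 0 := by
    have hr := (hg.up Ω).root
    intro h0
    have h1 := hr.pow_ne_one_of_pos_of_lt one_ne_zero (by norm_num : 1 < 2)
    apply h1
    rw [pow_one, map_neg, map_one]
    linear_combination -h0
  have hmap : ∀ (σ : Ω ≃ₐ[K] Ω) (e : Ω), Rt f e → Rt f (σ e) := fun σ e he => he.map (ak σ)
  -- the square roots
  have hex : ∀ e : Ω, ∃ b : Ω, b ^ 2 = aeval e h := by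
    intro e
    haveI : NeZero ((2 : ℕ) : Ω) := ⟨by exact_mod_cast h2⟩
    exact IsSepClosed.exists_pow_nat_eq (aeval e h) 2
  choose b hb using hex
  have hh0 : ∀ e : Ω, Rt f e → aeval e h ≠ 0 := by
    intro e he h0
    obtain ⟨u, v, huv⟩ := hco
    have h1 := congrArg (aeval e) huv
    rw [map_add, map_mul, map_mul, h0, show aeval e f = 0 from he, mul_zero, mul_zero, add_zero, map_one] at h1
    exact zero_ne_one h1
  have hb0 : ∀ e : Ω, Rt f e → b e ≠ 0 := by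
    intro e he h0
    apply hh0 e he
    rw [← hb e, h0, zero_pow two_ne_zero]
  have hrt : ∀ e ∈ (f.map (algebraMap K Ω)).roots, Rt f e := fun e he =>
    rt_of ((mem_roots (hg.up Ω).monic.ne_zero).1 he)
  -- the signs
  let z : (Ω ≃ₐ[K] Ω) → Ω → Ω := fun σ β => σ (b (σ⁻¹ β)) / b β
  have hinv : ∀ (σ : Ω ≃ₐ[K] Ω) (β : Ω), σ (σ⁻¹ β) = β := fun σ β => by
    rw [← AlgEquiv.mul_apply, mul_inv_cancel]; rfl
  have hinv' : ∀ (σ : Ω ≃ₐ[K] Ω) (β : Ω), σ⁻¹ (σ β) = β := fun σ β => by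
    rw [← AlgEquiv.mul_apply, inv_mul_cancel]; rfl
  have hz2 : ∀ σ β, Rt f β → z σ β ^ 2 = 1 := by
    intro σ β hβ
    show (σ (b (σ⁻¹ β)) / b β) ^ 2 = 1
    rw [div_pow, ← map_pow, hb, hb]
    have h3 : σ (aeval (σ⁻¹ β) h) = aeval (σ (σ⁻¹ β)) h := (aeval_algHom_apply (ak σ) (σ⁻¹ β) h).symm
    rw [h3, hinv, div_self (hh0 β hβ)]
  -- the norm
  set B : Ω := ((f.map (algebraMap K Ω)).roots.map b).prod with hB
  obtain ⟨y, hy⟩ := hsq
  have hB2 : B * B = algebraMap K Ω y * algebraMap K Ω y := by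
    rw [← map_mul, ← hy, Pool.Agent.N615.JB.nrm K Ω f h hg.monic (splits_up hg), hB, ← Multiset.prod_map_mul]
    congr 1
    exact Multiset.map_congr rfl fun e he => by rw [← hb e, sq]
  have hBfix : ∀ σ : Ω ≃ₐ[K] Ω, σ B = B := by
    intro σ
    rcases mul_self_eq_mul_self_iff.1 hB2 with h1 | h1
    · rw [h1, σ.commutes]
    · rw [h1, map_neg, σ.commutes]
  have hB0 : B ≠ 0 := by
    rw [hB]
    apply Multiset.prod_ne_zero
    intro h0
    obtain ⟨e, he, he0⟩ := Multiset.mem_map.1 h0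
    exact hb0 e (hrt e he) he0
  have hrm : ∀ σ : Ω ≃ₐ[K] Ω, (f.map (algebraMap K Ω)).roots.map σ = (f.map (algebraMap K Ω)).roots := by
    intro σ
    have h3 := roots_map_of_injective_of_card_eq_natDegree (p := f.map (algebraMap K Ω))
      (f := (σ : Ω →+* Ω)) (RingHom.injective _) (splits_up hg (Ω := Ω)).natDegree_eq_card_roots.symm
    have h4 : (f.map (algebraMap K Ω)).map (σ : Ω →+* Ω) = f.map (algebraMap K Ω) := by
      rw [Polynomial.map_map]
      congr 1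
      ext x
      exact σ.commutes x
    rw [h4] at h3
    exact h3
  have hzp : ∀ σ, ((f.map (algebraMap K Ω)).roots.map (z σ)).prod = 1 := by
    intro σ
    show ((f.map (algebraMap K Ω)).roots.map fun β => σ (b (σ⁻¹ β)) / b β).prod = 1
    rw [Multiset.prod_map_div, ← hB]
    have e1 : ((f.map (algebraMap K Ω)).roots.map fun β => σ (b (σ⁻¹ β))).prod = σ B := by
      conv_lhs => rw [← hrm σ, Multiset.map_map]
      rw [hB, map_multiset_prod, Multiset.map_map]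
      congr 1
      exact Multiset.map_congr rfl fun e he => by
        show σ (b (σ⁻¹ (σ e))) = σ (b e)
        rw [hinv']
    rw [e1, hBfix, div_self hB0]
  -- the cocycle
  have hc : ∀ σ : Ω ≃ₐ[K] Ω, ∃ x : Jac 2 f Ω, Tor hg x ∧ ∀ β, Rt f β → chi hg β x = z σ β := fun σ =>
    chi_surj H hg (hz2 σ) (hzp σ)
  choose c hct hcz using hc
  refine ⟨c, b, ?_, ?_, hct, ⟨fun e he => ⟨hb0 e he, hb e⟩, ?_⟩⟩
  · -- locally constant
    rw [IsLocallyConstant.iff_exists_open]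
    intro σ₀
    refine ⟨⋂ e ∈ (f.map (algebraMap K Ω)).roots.toFinset, ({σ : Ω ≃ₐ[K] Ω | σ e = σ₀ e} ∩
      {σ : Ω ≃ₐ[K] Ω | σ (b e) = σ₀ (b e)}), ?_, ?_, ?_⟩
    · refine isOpen_biInter_finset fun e _ => IsOpen.inter ?_ ?_
      · exact (Pool.Agent.W309.TD.locConst_apply (K := K) e).isOpen_fiber (σ₀ e)
      · exact (Pool.Agent.W309.TD.locConst_apply (K := K) (b e)).isOpen_fiber (σ₀ (b e))
    · simp only [Set.mem_iInter]
      intro e _
      exact ⟨rfl, rfl⟩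
    · intro σ hσ
      simp only [Set.mem_iInter] at hσ
      refine chi_ext H hg (hct σ) (hct σ₀) fun β hβ => ?_
      rw [hcz σ β hβ, hcz σ₀ β hβ]
      have he : Rt f (σ₀⁻¹ β) := hmap σ₀⁻¹ β hβ
      have he' : σ₀⁻¹ β ∈ (f.map (algebraMap K Ω)).roots.toFinset := by
        rw [Multiset.mem_toFinset]
        exact (mem_roots (hg.up Ω).monic.ne_zero).2 he.ev
      obtain ⟨h3, h4⟩ := hσ _ he'
      have h3' : σ (σ₀⁻¹ β) = σ₀ (σ₀⁻¹ β) := h3
      have h4' : σ (b (σ₀⁻¹ β)) = σ₀ (b (σ₀⁻¹ β)) := h4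
      have h5 : σ⁻¹ β = σ₀⁻¹ β := by
        have h6 := congrArg (fun x => σ⁻¹ x) h3'
        rw [hinv', hinv] at h6
        exact h6.symm
      show σ (b (σ⁻¹ β)) / b β = σ₀ (b (σ₀⁻¹ β)) / b β
      rw [h5, h4']
  · intro σ τ
    refine chi_ext H hg (hct _) ((hct _).add ((hct _).map _)) fun β hβ => ?_
    rw [chi_add H hg (hct _) ((hct _).map _) hβ, hcz _ β hβ, hcz _ β hβ]
    have hβ' : Rt f (σ⁻¹ β) := hmap σ⁻¹ β hβ
    have h6 := chi_map H hg (hct τ) hβ' (ak σ)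
    have h7 : (ak σ) (σ⁻¹ β) = β := hinv σ β
    rw [h7, hcz _ _ hβ'] at h6
    rw [h6]
    show (σ * τ) (b ((σ * τ)⁻¹ β)) / b β = σ (b (σ⁻¹ β)) / b β * σ (τ (b (τ⁻¹ (σ⁻¹ β))) / b (σ⁻¹ β))
    have h8 : (σ * τ)⁻¹ β = τ⁻¹ (σ⁻¹ β) := by
      rw [mul_inv_rev, AlgEquiv.mul_apply]
    rw [h8, AlgEquiv.mul_apply, map_div₀]
    have h9 : σ (b (σ⁻¹ β)) ≠ 0 := (_root_.map_ne_zero _).2 (hb0 _ hβ')
    have h10 := hb0 β hβ
    field_simp
  · intro σ e he
    rw [hcz σ (σ e) (hmap σ e he)]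
    show σ (b e) = σ (b (σ⁻¹ (σ e))) / b (σ e) * b (σ e)
    rw [hinv', div_mul_cancel₀ _ (hb0 _ (hmap σ e he))]

end Run7.h382.PL
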